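import Pool.Agent.H466.HE.SB

/-!
# HE-ZF1: at the regular points there are no zeros to the right of the strip

From the statement `S_ZFG` (no zero by the saddle point method on a vertical line).
-/

set_option autoImplicit false

namespace Pool.Agent.H282.HE

open Complex MeasureTheory Set Filter Topology
open scoped ComplexConjugate
open Pool.Agent.H466.HF Pool.Agent.H466.LD Pool.Agent.H466.HP Pool.Agent.H466.HN Pool.Agent.H466.HD
open Pool.Agent.H466.HE
open Pool.Agent.H862.VK (Yz)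

/-- differentiability of `P` -/
lemma P_diffAt {w : ℂ} (h : Yz w ≠ 0) : DifferentiableAt ℂ P w := by
  have hd := Pool.Agent.H862.VK.Yz_diff
  have hd2 : DifferentiableAt ℂ (deriv Yz) w := ((hd.analyticAt w).deriv).differentiableAt
  have h3 : DifferentiableAt ℂ (fun z => deriv Yz z / Yz z) w := hd2.div (hd w) h
  have e : P = fun z => deriv Yz z / Yz z := by
    funext z
    unfold P
    rw [logDeriv_apply]
  rw [e]
  exact h3

/-- Lipschitz bound for `P` from a bound on a larger disc -/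
lemma P_lip {c : ℂ} {s r ℓ B : ℝ} (hr : 0 < r)
    (h : ∀ w : ℂ, ‖w - c‖ ≤ s + r → Yz w ≠ 0 ∧ ‖P w - (ℓ : ℂ)‖ ≤ B) {w w' : ℂ}
    (hw : ‖w - c‖ ≤ s) (hw' : ‖w' - c‖ ≤ s) : ‖P w - P w'‖ ≤ B / r * ‖w - w'‖ := by
  have key : ∀ x ∈ Metric.closedBall c s, ‖deriv P x‖ ≤ B / r := by
    intro x hx
    rw [mem_closedBall_iff_norm] at hx
    have hsub : ∀ y : ℂ, ‖y - x‖ ≤ r → ‖y - c‖ ≤ s + r := by
      intro y hy
      have e : y - c = (y - x) + (x - c) := by ring
      rw [e]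
      exact (norm_add_le _ _).trans (by linarith)
    have hdc : DiffContOnCl ℂ (fun z => P z - (ℓ : ℂ)) (Metric.ball x r) := by
      apply DifferentiableOn.diffContOnCl
      rw [closure_ball x hr.ne']
      intro y hy
      rw [mem_closedBall_iff_norm] at hy
      exact ((P_diffAt (h y (hsub y hy)).1).sub_const _).differentiableWithinAt
    have h1 := Complex.norm_deriv_le_of_forall_mem_sphere_norm_le hr hdc (C := B) (by
      intro y hy
      rw [mem_sphere_iff_norm] at hy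
      exact (h y (hsub y hy.le)).2)
    have e : deriv (fun z => P z - (ℓ : ℂ)) x = deriv P x := by
      rw [deriv_sub_const]
    rwa [e] at h1
  have h2 := Convex.norm_image_sub_le_of_norm_deriv_le (f := P) (C := B / r)
    (s := Metric.closedBall c s) (x := w') (y := w)
    (fun x hx => by
      rw [mem_closedBall_iff_norm] at hx
      exact P_diffAt (h x (by linarith)).1) key (convex_closedBall c s)
    (by rw [mem_closedBall_iff_norm]; exact hw') (by rw [mem_closedBall_iff_norm]; exact hw)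
  exact h2

section cone

variable {T t A1 κ : ℝ}

/-- the cone -/
lemma mem_cone {x y : ℝ} (hx : A1 / Real.log T ≤ x) (hx4 : x ≤ 4)
    (h : |y - t| ≤ x / κ) : (x : ℂ) + (y : ℂ) * I ∈ Kt t (A1 / Real.log T) 4 (1 / κ) := by
  refine ⟨by simpa using hx, by simpa using hx4, ?_⟩
  have e : 1 / κ * x = x / κ := by ring
  have hre : ((x : ℂ) + (y : ℂ) * I).re = x := by simp
  have him : ((x : ℂ) + (y : ℂ) * I).im = y := by simp
  rw [hre, him, e]
  exact h

lemma cone_all {w : ℂ} (hT : 10 ≤ T) (hA1 : 0 < A1) (hκ : 0 < κ) (hκ1 : κ ≤ 1)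
    (R : Rg T t A1 (1 / κ) κ) (hx : A1 / Real.log T ≤ w.re) (hx4 : w.re ≤ 4)
    (h : |w.im - t| ≤ w.re / κ) :
    Yz w ≠ 0 ∧ ‖P w - ((Real.log T / 2 : ℝ) : ℂ)‖ ≤ κ * Real.log T := by
  have hL : 0 < Real.log T := Real.log_pos (by linarith)
  have hy : 0 < A1 / Real.log T := by positivity
  have hM : 1 ≤ 1 / κ := by
    rw [le_div_iff₀ hκ]
    linarith
  have hm : w ∈ Kt t (A1 / Real.log T) 4 (1 / κ) := by
    have := mem_cone (A1 := A1) (T := T) (t := t) hx hx4 h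
    rwa [Complex.re_add_im] at this
  exact ⟨cone_ne hy hM R.cf hm, R.pb _ hm⟩

/-- vertical movement in the cone -/
lemma vstep {x y1 y2 : ℝ} (hT : 10 ≤ T) (hA1 : 0 < A1) (hκ : 0 < κ) (hκ1 : κ ≤ 1)
    (R : Rg T t A1 (1 / κ) κ) (hx : A1 / Real.log T ≤ x) (hx4 : x ≤ 4)
    (h1 : |y1 - t| ≤ x / κ) (h2 : |y2 - t| ≤ x / κ) :
    ‖LL gk 0 ((x : ℂ) + (y2 : ℂ) * I)‖ ≤ ‖LL gk 0 ((x : ℂ) + (y1 : ℂ) * I)‖ *
      Real.exp (κ * Real.log T * |y2 - y1|) := by
  apply ver (ℓ := Real.log T / 2)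
  intro v hv
  rw [abs_le] at h1 h2
  have hv1 : |v - t| ≤ x / κ := by
    rw [mem_uIcc] at hv
    rw [abs_le]
    rcases hv with hv | hv
    · constructor <;> linarith [hv.1, hv.2, h1.1, h1.2, h2.1, h2.2]
    · constructor <;> linarith [hv.1, hv.2, h1.1, h1.2, h2.1, h2.2]
  exact cone_all hT hA1 hκ hκ1 R (by simpa using hx) (by simpa using hx4) (by simpa using hv1)

/-- horizontal movement in the cone -/
lemma hstep {x1 x2 y : ℝ} (hT : 10 ≤ T) (hA1 : 0 < A1) (hκ : 0 < κ) (hκ1 : κ ≤ 1)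
    (R : Rg T t A1 (1 / κ) κ) (hx1 : A1 / Real.log T ≤ x1) (hx14 : x1 ≤ 4)
    (hx2 : A1 / Real.log T ≤ x2) (hx24 : x2 ≤ 4)
    (h1 : |y - t| ≤ x1 / κ) (h2 : |y - t| ≤ x2 / κ) :
    ‖LL gk 0 ((x2 : ℂ) + (y : ℂ) * I)‖ ≤ ‖LL gk 0 ((x1 : ℂ) + (y : ℂ) * I)‖ *
      Real.exp (Real.log T / 2 * (x2 - x1) + κ * Real.log T * |x2 - x1|) := by
  apply hor
  intro u hu
  rw [mem_uIcc] at hu
  rw [le_div_iff₀ hκ] at h1 h2
  have h3 : A1 / Real.log T ≤ u ∧ u ≤ 4 ∧ |y - t| ≤ u / κ := by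
    rw [le_div_iff₀ hκ]
    rcases hu with hu | hu
    · exact ⟨by linarith [hu.1], by linarith [hu.2], by linarith [hu.1]⟩
    · exact ⟨by linarith [hu.1], by linarith [hu.2], by linarith [hu.1]⟩
  exact cone_all hT hA1 hκ hκ1 R (by simpa using h3.1) (by simpa using h3.2.1)
    (by simpa using h3.2.2)

/-- lower bound in the cone, close to the height `t` -/
lemma lowx {x y Γt K μ0 : ℝ} (hT : 10 ≤ T) (hA1 : 0 < A1) (hκ : 0 < κ) (hκ1 : κ ≤ 1)
    (R : Rg T t A1 (1 / κ) κ) (D : Far t (Real.log T / 2) Γt K μ0)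
    (hx : A1 / Real.log T ≤ x) (hx4 : x ≤ 4) (hy2 : A1 / Real.log T ≤ 2)
    (h1 : |y - t| ≤ x / κ) (h2 : |y - t| ≤ 1) :
    Γt * Real.exp (Real.log T / 2 * x - 6 * K - 4 * κ * Real.log T) ≤
      ‖LL gk 0 ((x : ℂ) + (y : ℂ) * I)‖ := by
  have hL : 0 < Real.log T := Real.log_pos (by linarith)
  have hy0 : 0 < A1 / Real.log T := by positivity
  have h3 := hstep (x1 := x) (x2 := 2) (y := y) hT hA1 hκ hκ1 R hx hx4 hy2 (by norm_num) h1 (by
    rw [le_div_iff₀ hκ]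
    nlinarith [abs_nonneg (y - t)])
  have h4 := D.low ((2 : ℝ) + (y : ℂ) * I) (by simp; norm_num)
  have h5 := h4.trans h3
  have hre : (((2 : ℝ) : ℂ) + (y : ℂ) * I).re = 2 := by simp
  have him : (((2 : ℝ) : ℂ) + (y : ℂ) * I).im - t = y - t := by simp
  rw [hre, him] at h5
  have h6 := mul_le_mul_of_nonneg_right h5
    (Real.exp_pos (-(Real.log T / 2 * (2 - x) + κ * Real.log T * |2 - x|))).le
  have e6 : ∀ (X b : ℝ), X * Real.exp b * Real.exp (-b) = X := fun X b => by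
    rw [mul_assoc, ← Real.exp_add, add_neg_cancel, Real.exp_zero, mul_one]
  rw [e6, mul_assoc, ← Real.exp_add] at h6
  refine le_trans (mul_le_mul_of_nonneg_left (Real.exp_le_exp.mpr ?_) D.Γpos.le) h6
  have hK := D.K1
  have h7 : (y - t) ^ 2 ≤ 1 := by
    rw [← sq_abs]
    nlinarith [abs_nonneg (y - t)]
  have h8 : |2 - x| ≤ 4 := by
    rw [abs_le]
    constructor <;> linarith
  have h9 : κ * Real.log T * |2 - x| ≤ κ * Real.log T * 4 :=
    mul_le_mul_of_nonneg_left h8 (by positivity)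
  have h10 : K * (1 + 2 ^ 2 + (y - t) ^ 2) ≤ K * 6 :=
    mul_le_mul_of_nonneg_left (by linarith) (by linarith)
  nlinarith

end cone

/-- the condition far from the centre, first case -/
lemma far1 {T t A1 κ Γt K μ0 μ ε x y v : ℝ} (hT : 10 ≤ T) (hA1 : 1 ≤ A1) (hκ : 0 < κ)
    (hε : 0 < ε) (hε1 : ε ≤ 1) (hκε : κ ≤ ε / 64)
    (R : Rg T t A1 (1 / κ) κ) (D : Far t (Real.log T / 2) Γt K μ0) (hμ : 0 < μ)
    (hA : 4 * A1 / ε ≤ μ * Real.log T ^ 2) (hδ : μ * Real.log T * (2 * μ0 + 2) ≤ 1)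
    (hL : 128 * K ≤ Real.log T)
    (hx : 7 / 8 * (ε * (μ * Real.log T)) ≤ x) (hx4 : x ≤ 4) (hy : |y - t| ≤ 2 * (μ * Real.log T))
    (hv : ε * (μ * Real.log T) / 8 ≤ |v|) :
    ‖LL gk 0 ((x : ℂ) + ((y + v : ℝ) : ℂ) * I)‖ ≤ ‖LL gk 0 ((x : ℂ) + (y : ℂ) * I)‖ *
      Real.exp (v ^ 2 / (8 * μ)) := by
  have hLp : 0 < Real.log T := Real.log_pos (by linarith)
  set L := Real.log T with hLdef
  set Δ := μ * L with hΔ
  have hΔp : 0 < Δ := by positivity
  have hκ1 : κ ≤ 1 / 64 := by linarith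
  have hμ0 := D.μ0p
  have hK := D.K1
  have hΔ2 : Δ ≤ 1 / 2 := by nlinarith
  have hAL : μ * L ^ 2 = Δ * L := by rw [hΔ]; ring
  rw [hAL] at hA
  rw [div_le_iff₀ hε] at hA
  have hΔL : A1 ≤ Δ * L := by nlinarith [mul_pos hΔp hLp]
  have hy0 : A1 / L ≤ x := by
    rw [div_le_iff₀ hLp]
    nlinarith
  have hy01 : A1 / L ≤ 1 := by
    rw [div_le_iff₀ hLp]
    nlinarith
  have hxκ : 56 * Δ ≤ x / κ := by
    rw [le_div_iff₀ hκ]
    nlinarith
  have hxp : 0 < x := lt_of_lt_of_le (by positivity) hx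
  have hyx : |y - t| ≤ x / κ := by linarith
  have hv0 := abs_nonneg v
  have hyv : |y + v - t| ≤ |v| + 2 * Δ := by
    have e : y + v - t = v + (y - t) := by ring
    rw [e]
    exact (abs_add_le _ _).trans (by linarith)
  have hsq : v ^ 2 = |v| * |v| := by rw [← sq_abs]; ring
  rcases le_or_gt (|v| + 2 * Δ) (x / κ) with ha | hb
  · have h1 := vstep (y1 := y) (y2 := y + v) hT (by linarith) hκ (by linarith) R hy0 hx4 hyx
      (hyv.trans ha)
    refine h1.trans (mul_le_mul_of_nonneg_left (Real.exp_le_exp.mpr ?_) (norm_nonneg _))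
    have e : y + v - y = v := by ring
    rw [e, le_div_iff₀ (by positivity), hsq]
    have h2 : κ * L * (8 * μ) ≤ |v| := by
      refine le_trans ?_ hv
      have : κ * L * (8 * μ) = 8 * κ * Δ := by rw [hΔ]; ring
      rw [this]
      nlinarith
    calc κ * L * |v| * (8 * μ) = (κ * L * (8 * μ)) * |v| := by ring
      _ ≤ |v| * |v| := mul_le_mul_of_nonneg_right h2 hv0
  have hv54 : 54 * Δ ≤ |v| := by linarith
  rw [div_lt_iff₀ hκ] at hb
  have hx2 : x ≤ 2 * κ * |v| := by nlinarith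
  rcases le_or_gt |v| 2 with hv2 | hv2
  · have h1 := ustar mono hT (by linarith) hy01 (by rw [le_div_iff₀ hκ]; linarith) hκ (by linarith)
      (by rw [mul_one_div_cancel hκ.ne']) R D hy0 hx4 hxp.le (v := y + v - t)
      (by linarith)
    have e1 : t + (y + v - t) = y + v := by ring
    rw [e1] at h1
    have h2 := vstep (y1 := y) (y2 := t) hT (by linarith) hκ (by linarith) R hy0 hx4 hyx (by
      rw [sub_self, abs_zero]
      positivity)
    refine h1.trans ((mul_le_mul_of_nonneg_right h2 (Real.exp_pos _).le).trans ?_)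
    rw [mul_assoc, ← Real.exp_add]
    refine mul_le_mul_of_nonneg_left (Real.exp_le_exp.mpr ?_) (norm_nonneg _)
    rw [← hLdef]
    have hty : |t - y| ≤ |v| := by
      rw [abs_sub_comm]
      linarith
    have hyv2 : |y + v - t| ≤ 2 * |v| := by linarith
    have hLv : 0 ≤ L * |v| := by positivity
    -- the linear terms
    have hκv : κ * (L * |v|) ≤ 1 / 64 * (L * |v|) := mul_le_mul_of_nonneg_right hκ1 hLv
    have c1 : κ * L * |t - y| ≤ 1 / 64 * (L * |v|) := by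
      have h3 : κ * L * |t - y| ≤ κ * L * |v| := mul_le_mul_of_nonneg_left hty (by positivity)
      have h4 : κ * L * |v| = κ * (L * |v|) := by ring
      rw [h4] at h3
      exact h3.trans hκv
    have c2 : κ * L * (x + x) ≤ 4 / 64 * (L * |v|) := by
      have h3 : κ * L * (x + x) ≤ κ * L * (2 * κ * |v| + 2 * κ * |v|) :=
        mul_le_mul_of_nonneg_left (add_le_add hx2 hx2) (by positivity)
      have h4 : κ * L * (2 * κ * |v| + 2 * κ * |v|) = 4 * κ * (κ * (L * |v|)) := by ring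
      have h5 : 4 * κ * (κ * (L * |v|)) ≤ 4 * κ * (1 / 64 * (L * |v|)) :=
        mul_le_mul_of_nonneg_left hκv (by positivity)
      have h6 : 4 * κ * (1 / 64 * (L * |v|)) = 4 / 64 * (κ * (L * |v|)) := by ring
      have h7 : κ * (L * |v|) ≤ L * |v| := by
        have h8 : 1 / 64 * (L * |v|) ≤ 1 * (L * |v|) :=
          mul_le_mul_of_nonneg_right (by norm_num) hLv
        rw [one_mul] at h8
        exact hκv.trans h8
      rw [h4] at h3
      rw [h6] at h5
      exact (h3.trans h5).trans (mul_le_mul_of_nonneg_left h7 (by norm_num))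
    have c3 : 3 * κ * L * |y + v - t| ≤ 6 / 64 * (L * |v|) := by
      have h3 : 3 * κ * L * |y + v - t| ≤ 3 * κ * L * (2 * |v|) :=
        mul_le_mul_of_nonneg_left hyv2 (by positivity)
      have h4 : 3 * κ * L * (2 * |v|) = 6 * (κ * (L * |v|)) := by ring
      have h5 : 6 * (κ * (L * |v|)) ≤ 6 * (1 / 64 * (L * |v|)) :=
        mul_le_mul_of_nonneg_left hκv (by norm_num)
      have h6 : 6 * (1 / 64 * (L * |v|)) = 6 / 64 * (L * |v|) := by ring
      rw [h4] at h3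
      rw [h6] at h5
      exact h3.trans h5
    have c4 : 2 * K * x ^ 2 ≤ K * v ^ 2 := by
      have h3 : x ≤ 1 / 32 * |v| :=
        hx2.trans (mul_le_mul_of_nonneg_right (by linarith only [hκ1]) hv0)
      have h4 : x ^ 2 ≤ (1 / 32 * |v|) ^ 2 := pow_le_pow_left₀ hxp.le h3 2
      have h5 : (1 / 32 * |v|) ^ 2 = 1 / 1024 * v ^ 2 := by
        rw [hsq]
        ring
      rw [h5] at h4
      have h6 : 0 ≤ v ^ 2 := sq_nonneg v
      have h7 : 2 * K * x ^ 2 ≤ 2 * K * (1 / 1024 * v ^ 2) :=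
        mul_le_mul_of_nonneg_left h4 (by positivity)
      have h8 : 0 ≤ K * v ^ 2 := by positivity
      linarith only [h7, h8]
    -- the quadratic term
    have d1 : L * |v| ≤ v ^ 2 / (16 * μ) := by
      rw [le_div_iff₀ (by positivity), hsq]
      have : L * |v| * (16 * μ) = 16 * Δ * |v| := by rw [hΔ]; ring
      rw [this]
      apply mul_le_mul_of_nonneg_right _ hv0
      linarith only [hv54, hΔp]
    have d2 : 2 * A1 ≤ v ^ 2 / (32 * μ) := by
      rw [le_div_iff₀ (by positivity), hsq]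
      have h3 : (54 * Δ) * (54 * Δ) ≤ |v| * |v| :=
        mul_le_mul hv54 hv54 (by positivity) hv0
      have h4 : 2 * A1 * (32 * μ) ≤ 2 * (Δ * L) * (32 * μ) :=
        mul_le_mul_of_nonneg_right (by linarith) (by positivity)
      have h5 : 2 * (Δ * L) * (32 * μ) = 64 * (Δ * Δ) := by rw [hΔ]; ring
      have h6 : 54 * Δ * (54 * Δ) = 2916 * (Δ * Δ) := by ring
      have h7 : 0 < Δ * Δ := mul_pos hΔp hΔp
      linarith only [h3, h4, h5, h6, h7]
    have d3 : K * v ^ 2 ≤ v ^ 2 / (32 * μ) := by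
      rw [le_div_iff₀ (by positivity)]
      have h3 : K * (32 * μ) ≤ 1 := by
        have h4 : K * (32 * μ) ≤ L / 128 * (32 * μ) :=
          mul_le_mul_of_nonneg_right (by linarith only [hL]) (by positivity)
        have h5 : L / 128 * (32 * μ) = Δ / 4 := by rw [hΔ]; ring
        linarith only [h4, h5, hΔ2]
      have h6 : K * (32 * μ) * v ^ 2 ≤ 1 * v ^ 2 := mul_le_mul_of_nonneg_right h3 (sq_nonneg v)
      linarith only [h6]
    have d4 : v ^ 2 / (8 * μ) = v ^ 2 / (16 * μ) + v ^ 2 / (32 * μ) + v ^ 2 / (32 * μ) := by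
      field_simp
      ring
    rw [d4]
    have e2 : x - x = 0 := by ring
    rw [e2, mul_zero]
    linarith only [c1, c2, c3, c4, d1, d2, d3, hLv]
  · have h1 := D.up ((x : ℂ) + ((y + v : ℝ) : ℂ) * I)
    have hre : ((x : ℂ) + ((y + v : ℝ) : ℂ) * I).re = x := by simp
    have him : ((x : ℂ) + ((y + v : ℝ) : ℂ) * I).im - t = y + v - t := by simp
    rw [hre, him, abs_of_pos hxp] at h1
    have h2 := lowx (x := x) (y := y) hT (by linarith) hκ (by linarith) R D hy0 hx4 (by linarith) hyx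
      (by linarith)
    refine h1.trans (le_trans ?_ (mul_le_mul_of_nonneg_right h2 (Real.exp_pos _).le))
    rw [mul_assoc, ← Real.exp_add]
    refine mul_le_mul_of_nonneg_left (Real.exp_le_exp.mpr ?_) D.Γpos.le
    rw [← hLdef]
    have hyv2 : |y + v - t| ≤ 3 / 2 * |v| := by linarith
    have hyv3 : (y + v - t) ^ 2 ≤ 9 / 4 * v ^ 2 := by
      rw [← sq_abs (y + v - t)]
      have h3 := pow_le_pow_left₀ (abs_nonneg _) hyv2 2
      have h4 : (3 / 2 * |v|) ^ 2 = 9 / 4 * (|v| * |v|) := by ring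
      rw [hsq]
      linarith only [h3, h4]
    have hv4 : 4 ≤ v ^ 2 := by
      have h3 : 2 * 2 ≤ |v| * |v| := mul_le_mul hv2.le hv2.le (by norm_num) hv0
      rw [hsq]
      linarith only [h3]
    have hx16 : x ^ 2 ≤ 16 := by
      have h3 := pow_le_pow_left₀ hxp.le hx4 2
      norm_num at h3
      exact h3
    have c1 : K * (1 + x ^ 2 + (y + v - t) ^ 2) ≤ K * (17 / 4 * v ^ 2 + 9 / 4 * v ^ 2) :=
      mul_le_mul_of_nonneg_left (by linarith only [hx16, hyv3, hv4]) (by linarith only [hK])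
    have c2 : K * 6 ≤ K * (3 / 2 * v ^ 2) :=
      mul_le_mul_of_nonneg_left (by linarith only [hv4]) (by linarith only [hK])
    have d1 : L / 2 * μ0 + 4 * κ * L ≤ v ^ 2 / (16 * μ) := by
      rw [le_div_iff₀ (by positivity)]
      have h3 : (L / 2 * μ0 + 4 * κ * L) * (16 * μ) = Δ * (8 * μ0 + 64 * κ) := by rw [hΔ]; ring
      rw [h3]
      have h4 : Δ * (8 * μ0 + 64 * κ) ≤ Δ * (8 * μ0 + 8) :=
        mul_le_mul_of_nonneg_left (by linarith only [hκ1]) hΔp.le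
      linarith only [h4, hδ, hv4]
    have d2 : 8 * K * v ^ 2 ≤ v ^ 2 / (16 * μ) := by
      rw [le_div_iff₀ (by positivity)]
      have h3 : 8 * K * (16 * μ) ≤ 1 := by
        have h4 : 8 * K * (16 * μ) = (128 * K) * μ := by ring
        have h5 : (128 * K) * μ ≤ L * μ := mul_le_mul_of_nonneg_right hL hμ.le
        have h6 : L * μ = Δ := by rw [hΔ]; ring
        linarith only [h4, h5, h6, hΔ2]
      have h7 : 8 * K * (16 * μ) * v ^ 2 ≤ 1 * v ^ 2 :=
        mul_le_mul_of_nonneg_right h3 (sq_nonneg v)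
      linarith only [h7]
    have d4 : v ^ 2 / (8 * μ) = v ^ 2 / (16 * μ) + v ^ 2 / (16 * μ) := by
      field_simp
      ring
    rw [d4]
    linarith only [c1, c2, d1, d2]

/-- the condition far from the centre, second case -/
lemma far2 {T t Γt K μ0 μ R0 x y v : ℝ} (hT : 10 ≤ T) (D : Far t (Real.log T / 2) Γt K μ0)
    (hμ : 0 < μ) (hδ : μ * Real.log T * (512 * (μ0 + 1)) ≤ 1)
    (hL : 64 * K * (5 + 2 * R0 ^ 2) + 2 * K ≤ Real.log T)
    (hx : 3 / 2 ≤ x) (hx4 : x ≤ R0) (hy : |y - t| ≤ 1) (hv : 1 / 8 ≤ |v|) :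
    ‖LL gk 0 ((x : ℂ) + ((y + v : ℝ) : ℂ) * I)‖ ≤ ‖LL gk 0 ((x : ℂ) + (y : ℂ) * I)‖ *
      Real.exp (v ^ 2 / (8 * μ)) := by
  have hLp : 0 < Real.log T := Real.log_pos (by linarith)
  set L := Real.log T with hLdef
  set Δ := μ * L with hΔ
  have hΔp : 0 < Δ := by positivity
  have hμ0 := D.μ0p
  have hK := D.K1
  have h1 := D.up ((x : ℂ) + ((y + v : ℝ) : ℂ) * I)
  have hre : ((x : ℂ) + ((y + v : ℝ) : ℂ) * I).re = x := by simp
  have him : ((x : ℂ) + ((y + v : ℝ) : ℂ) * I).im - t = y + v - t := by simp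
  rw [hre, him, abs_of_pos (by linarith)] at h1
  have h2 := D.low ((x : ℂ) + (y : ℂ) * I) (by simpa using hx)
  have hre2 : ((x : ℂ) + (y : ℂ) * I).re = x := by simp
  have him2 : ((x : ℂ) + (y : ℂ) * I).im - t = y - t := by simp
  rw [hre2, him2] at h2
  refine h1.trans (le_trans ?_ (mul_le_mul_of_nonneg_right h2 (Real.exp_pos _).le))
  rw [mul_assoc, ← Real.exp_add]
  refine mul_le_mul_of_nonneg_left (Real.exp_le_exp.mpr ?_) D.Γpos.le
  have hv0 := abs_nonneg v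
  have hsq : v ^ 2 = |v| * |v| := by rw [← sq_abs]; ring
  have hyt : (y - t) ^ 2 ≤ 1 := by
    rw [← sq_abs]
    nlinarith [abs_nonneg (y - t)]
  have hyv : (y + v - t) ^ 2 ≤ 2 * v ^ 2 + 2 := by
    nlinarith [sq_nonneg (y - t - v)]
  have hxR : x ^ 2 ≤ R0 ^ 2 := pow_le_pow_left₀ (by linarith) hx4 2
  have c1 : K * (1 + x ^ 2 + (y + v - t) ^ 2) + K * (1 + x ^ 2 + (y - t) ^ 2) ≤
      K * (5 + 2 * R0 ^ 2 + 2 * v ^ 2) := by
    rw [← mul_add]
    exact mul_le_mul_of_nonneg_left (by linarith) (by linarith)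
  have hv4 : 1 / 64 ≤ v ^ 2 := by
    rw [hsq]
    nlinarith
  have d1 : L / 2 * μ0 ≤ v ^ 2 / (16 * μ) := by
    rw [le_div_iff₀ (by positivity)]
    have h3 : L / 2 * μ0 * (16 * μ) = Δ * (8 * μ0) := by rw [hΔ]; ring
    rw [h3]
    nlinarith
  have d2 : K * (5 + 2 * R0 ^ 2 + 2 * v ^ 2) ≤ v ^ 2 / (16 * μ) := by
    rw [le_div_iff₀ (by positivity)]
    have h3 : K * (5 + 2 * R0 ^ 2 + 2 * v ^ 2) ≤ L * v ^ 2 := by
      have h4 : K * (5 + 2 * R0 ^ 2) ≤ 64 * K * (5 + 2 * R0 ^ 2) * v ^ 2 := by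
        have h5 : 0 ≤ K * (5 + 2 * R0 ^ 2) := by positivity
        nlinarith
      have h6 : (64 * K * (5 + 2 * R0 ^ 2) + 2 * K) * v ^ 2 ≤ L * v ^ 2 :=
        mul_le_mul_of_nonneg_right hL (sq_nonneg v)
      nlinarith
    have h7 : K * (5 + 2 * R0 ^ 2 + 2 * v ^ 2) * (16 * μ) ≤ L * v ^ 2 * (16 * μ) :=
      mul_le_mul_of_nonneg_right h3 (by positivity)
    have h8 : L * v ^ 2 * (16 * μ) = 16 * Δ * v ^ 2 := by rw [hΔ]; ring
    have h9 : 16 * Δ ≤ 1 := by nlinarith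
    nlinarith [sq_nonneg v]
  have d4 : v ^ 2 / (8 * μ) = v ^ 2 / (16 * μ) + v ^ 2 / (16 * μ) := by
    field_simp
    ring
  rw [d4]
  nlinarith

theorem zf1 (h : S_ZFG) : S_ZF1 := by
  obtain ⟨κ1, K1, hκ1, hK1, hZ⟩ := h
  obtain ⟨_, K, μ0, _, T0, hK46, hμ0, hT0, _, hfar⟩ := far_data
  intro ε R0 hε hε1 hR0
  refine ⟨min (ε / 64) (ε * κ1 / 4), 1 / (512 * (μ0 + 1)), by positivity, by positivity, ?_⟩
  intro κ hκ hκ0 A1 hA1
  have hκa : κ ≤ ε / 64 := hκ0.trans (min_le_left _ _)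
  have hκb : κ ≤ ε * κ1 / 4 := hκ0.trans (min_le_right _ _)
  set L0 := 128 * K + (64 * K * (5 + 2 * (R0 + 1) ^ 2) + 2 * K) + 16 * (K * (R0 + 4)) +
    2 * (K * (R0 + 4)) / κ1 + 4 * K1 with hL0
  refine ⟨4 * A1 / ε + 4 * K1 / ε ^ 2, max T0 (Real.exp L0), ?_, le_max_of_le_left hT0, ?_⟩
  · have h1 : 1 ≤ 4 * A1 / ε := by
      rw [le_div_iff₀ hε]
      linarith
    have h2 : 0 ≤ 4 * K1 / ε ^ 2 := by positivity
    linarith
  intro T t μ hT ht1 ht2 R hμ hA hδ z hz1 hz2 hz3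
  have hTT0 : T0 ≤ T := (le_max_left _ _).trans hT
  have hT10 : 10 ≤ T := hT0.trans hTT0
  have hTe : Real.exp L0 ≤ T := (le_max_right _ _).trans hT
  have hLL0 : L0 ≤ Real.log T := by rwa [Real.le_log_iff_exp_le (by linarith)]
  have D := (hfar T t hTT0 ht1 ht2).2
  have hLp : 0 < Real.log T := Real.log_pos (by linarith)
  set L := Real.log T with hLdef
  set Δ := μ * L with hΔ
  have hΔp : 0 < Δ := by positivity
  have hK1' : 1 ≤ K := by linarith
  have hδ' : Δ * (512 * (μ0 + 1)) ≤ 1 := by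
    rwa [le_div_iff₀ (by positivity)] at hδ
  have hΔμ : 0 ≤ Δ * μ0 := mul_nonneg hΔp.le hμ0
  have hΔ1 : Δ ≤ 1 / 512 := by linarith only [hδ', hΔμ]
  have hAL : μ * L ^ 2 = Δ * L := by rw [hΔ]; ring
  have hq0 : 0 ≤ Δ * (μ0 + 1) := by positivity
  have hδ2 : Δ * (2 * μ0 + 2) ≤ 1 := by linarith only [hδ', hq0]
  have hR4 : 0 ≤ K * (R0 + 4) := by positivity
  have hκ1' : κ ≤ 1 / 64 := by linarith
  have p1 : 0 ≤ 64 * K * (5 + 2 * (R0 + 1) ^ 2) + 2 * K := by positivity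
  have p2 : 0 ≤ 2 * (K * (R0 + 4)) / κ1 := by positivity
  have hL128 : 128 * K ≤ L := by linarith only [hLL0, hL0, p1, p2, hR4, hK1]
  have hL64 : 64 * K * (5 + 2 * (R0 + 1) ^ 2) + 2 * K ≤ L := by
    linarith only [hLL0, hL0, hK1', p2, hR4, hK1]
  have hLB : 16 * (K * (R0 + 4)) ≤ L := by linarith only [hLL0, hL0, hK1', p1, p2, hK1]
  have hLκ : 2 * (K * (R0 + 4)) / κ1 ≤ L := by linarith only [hLL0, hL0, hK1', p1, hR4, hK1]
  have hLK1 : 4 * K1 ≤ L := by linarith only [hLL0, hL0, hK1', p1, p2, hR4]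
  have hA1' : 4 * A1 / ε ≤ μ * L ^ 2 := by
    have : 0 ≤ 4 * K1 / ε ^ 2 := by positivity
    linarith
  have hA2 : 4 * K1 / ε ^ 2 ≤ μ * L ^ 2 := by
    have : 0 ≤ 4 * A1 / ε := by positivity
    linarith
  have hcre : (z - (μ * L : ℝ)).re = z.re - Δ := by simp [hΔ]
  have hcim : (z - (μ * L : ℝ)).im = z.im := by simp
  have hdist : ∀ {w : ℂ} {r : ℝ}, ‖w - (z - (μ * L : ℝ))‖ ≤ r →
      z.re - Δ - r ≤ w.re ∧ w.re ≤ z.re - Δ + r ∧ |w.im - t| ≤ Δ + r := by
    intro w r hw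
    have h1 := (Complex.abs_re_le_norm _).trans hw
    have h2 := (Complex.abs_im_le_norm _).trans hw
    rw [Complex.sub_re, hcre] at h1
    rw [Complex.sub_im, hcim] at h2
    rw [abs_le] at h1
    refine ⟨by linarith [h1.1], by linarith [h1.2], ?_⟩
    have e : w.im - t = (w.im - z.im) + (z.im - t) := by ring
    rw [e]
    exact (abs_add_le _ _).trans (by linarith)
  have hwv : ∀ (w : ℂ) (v : ℝ), w + v * I = (w.re : ℂ) + ((w.im + v : ℝ) : ℂ) * I := by
    intro w v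
    apply Complex.ext <;> simp
  have hww : ∀ w : ℂ, w = (w.re : ℂ) + (w.im : ℂ) * I := fun w => (Complex.re_add_im w).symm
  rcases le_or_gt z.re 3 with hz | hz
  · -- first case
    have hεΔ : 0 < ε * Δ := by positivity
    have hεΔ1 : ε * Δ ≤ Δ := mul_le_of_le_one_left hΔp.le hε1
    have hκΔ : κ * Δ ≤ ε / 64 * Δ := mul_le_mul_of_nonneg_right hκa hΔp.le
    have hyc : A1 / L ≤ ε * Δ / 4 := by
      rw [div_le_iff₀ hLp]
      have e0 := hA1'
      rw [hAL, div_le_iff₀ hε] at e0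
      have e : ε * Δ / 4 * L = Δ * L * ε / 4 := by ring
      rw [e]
      linarith only [e0]
    have hdisc : ∀ w : ℂ, ‖w - (z - (μ * L : ℝ))‖ ≤ ε * Δ / 2 + ε * Δ / 4 →
        Yz w ≠ 0 ∧ ‖P w - ((L / 2 : ℝ) : ℂ)‖ ≤ κ * L := by
      intro w hw
      obtain ⟨h1, h2, h3⟩ := hdist hw
      have h4 : ε * Δ / 4 ≤ w.re := by linarith only [h1, hz1]
      have q0 : 0 < A1 := by linarith only [hA1]
      have q1 : κ ≤ 1 := by linarith only [hκ1']
      have q2 : A1 / L ≤ w.re := hyc.trans h4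
      have q3 : w.re ≤ 4 := by linarith only [h2, hz, hεΔ1, hΔ1, hΔp]
      refine cone_all hT10 q0 hκ q1 R q2 q3 ?_
      rw [le_div_iff₀ hκ]
      have h5 : |w.im - t| * κ ≤ 2 * Δ * κ :=
        mul_le_mul_of_nonneg_right (by linarith only [h3, hεΔ1, hΔp]) hκ.le
      linarith only [h5, hκΔ, h4, hεΔ]
    refine hZ μ L (ε * Δ / 2) z hμ hLp (by positivity) ?_ ?_ ?_ ?_
    · have h1 : (ε * Δ / 2) ^ 2 = ε ^ 2 / 4 * (μ * L ^ 2) * μ := by rw [hΔ]; ring
      rw [h1]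
      apply mul_le_mul_of_nonneg_right _ hμ.le
      have e0 := hA2
      rw [div_le_iff₀ (by positivity)] at e0
      linarith only [e0]
    · intro w hw
      have h1 := hdisc w (by linarith only [hw, hεΔ])
      refine ⟨F_ne h1.1, ?_⟩
      have h2 : 2 * μ * ‖P w - (L / 2 : ℝ)‖ ≤ 2 * μ * (κ * L) :=
        mul_le_mul_of_nonneg_left h1.2 (by positivity)
      have h3 : 2 * μ * (κ * L) = 2 * (κ * Δ) := by rw [hΔ]; ring
      have h4 : κ * Δ ≤ ε / 64 * Δ := mul_le_mul_of_nonneg_right hκa hΔp.le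
      linarith only [h2, h3, h4, hεΔ]
    · intro w w' hw hw'
      have h1 := P_lip (c := z - (μ * L : ℝ)) (s := ε * Δ / 2) (r := ε * Δ / 4)
        (by positivity) hdisc hw hw'
      refine h1.trans ?_
      have h2 : κ * L / (ε * Δ / 4) ≤ κ1 / μ := by
        rw [div_le_div_iff₀ (by positivity) hμ]
        have h3 : κ * L * μ = κ * Δ := by rw [hΔ]; ring
        rw [h3]
        have h4 : κ * Δ ≤ ε * κ1 / 4 * Δ := mul_le_mul_of_nonneg_right hκb hΔp.le
        linarith only [h4]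
      calc κ * L / (ε * Δ / 4) * ‖w - w'‖ ≤ κ1 / μ * ‖w - w'‖ :=
            mul_le_mul_of_nonneg_right h2 (norm_nonneg _)
        _ = κ1 * ‖w - w'‖ / μ := by ring
    · intro w v hw hv
      obtain ⟨h1, h2, h3⟩ := hdist hw
      have q1 : 7 / 8 * (ε * Δ) ≤ w.re := by linarith only [h1, hz1]
      have q2 : w.re ≤ 4 := by linarith only [h2, hz, hεΔ1, hΔ1, hΔp]
      have q3 : |w.im - t| ≤ 2 * Δ := by linarith only [h3, hεΔ1, hΔp]
      have q4 : ε * Δ / 8 ≤ |v| := by linarith only [hv]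
      have h4 := far1 (x := w.re) (y := w.im) (v := v) hT10 hA1 hκ hε hε1 hκa R D hμ hA1'
        hδ2 hL128 q1 q2 q3 q4
      rw [← hwv, ← hww] at h4
      exact h4
  · -- second case
    have hdisc : ∀ w : ℂ, ‖w - (z - (μ * L : ℝ))‖ ≤ 1 / 2 + 1 / 2 →
        Yz w ≠ 0 ∧ ‖P w - ((L / 2 : ℝ) : ℂ)‖ ≤ K * (R0 + 4) := by
      intro w hw
      obtain ⟨h1, h2, h3⟩ := hdist hw
      have h4 : 3 / 2 ≤ w.re := by linarith only [h1, hz, hΔ1]
      refine ⟨D.ne w h4, (D.dP w h4).trans ?_⟩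
      apply mul_le_mul_of_nonneg_left _ (by linarith only [hK1'])
      linarith only [h2, h3, hz2, hΔ1, hΔp]
    refine hZ μ L (1 / 2) z hμ hLp (by positivity) ?_ ?_ ?_ ?_
    · have h1 : 4 * K1 * μ ≤ L * μ := mul_le_mul_of_nonneg_right hLK1 hμ.le
      have h2 : L * μ = Δ := by rw [hΔ]; ring
      rw [h2] at h1
      linarith only [h1, hΔ1]
    · intro w hw
      have h1 := hdisc w (by linarith only [hw])
      refine ⟨F_ne h1.1, ?_⟩
      have h2 : 2 * μ * ‖P w - (L / 2 : ℝ)‖ ≤ 2 * μ * (K * (R0 + 4)) :=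
        mul_le_mul_of_nonneg_left h1.2 (by positivity)
      have h3 : μ * (16 * (K * (R0 + 4))) ≤ μ * L := mul_le_mul_of_nonneg_left hLB hμ.le
      linarith only [h2, h3, hΔ1, hΔ]
    · intro w w' hw hw'
      have h1 := P_lip (c := z - (μ * L : ℝ)) (s := 1 / 2) (r := 1 / 2)
        (by positivity) hdisc hw hw'
      refine h1.trans ?_
      have h2 : K * (R0 + 4) / (1 / 2) ≤ κ1 / μ := by
        rw [div_le_div_iff₀ (by positivity) hμ]
        have h3 := hLκ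
        rw [div_le_iff₀ hκ1] at h3
        have h4 : 2 * (K * (R0 + 4)) * μ ≤ L * κ1 * μ := mul_le_mul_of_nonneg_right h3 hμ.le
        have h5 : L * κ1 * μ = κ1 * Δ := by rw [hΔ]; ring
        have h6 : κ1 * Δ ≤ κ1 * (1 / 512) := mul_le_mul_of_nonneg_left hΔ1 hκ1.le
        linarith only [h4, h5, h6, hκ1]
      calc K * (R0 + 4) / (1 / 2) * ‖w - w'‖ ≤ κ1 / μ * ‖w - w'‖ :=
            mul_le_mul_of_nonneg_right h2 (norm_nonneg _)
        _ = κ1 * ‖w - w'‖ / μ := by ring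
    · intro w v hw hv
      obtain ⟨h1, h2, h3⟩ := hdist hw
      have q1 : 3 / 2 ≤ w.re := by linarith only [h1, hz, hΔ1]
      have q2 : w.re ≤ R0 + 1 := by linarith only [h2, hz2, hΔp]
      have q3 : |w.im - t| ≤ 1 := by linarith only [h3, hΔ1]
      have q4 : 1 / 8 ≤ |v| := by linarith only [hv]
      have h4 := far2 (x := w.re) (y := w.im) (v := v) (R0 := R0 + 1) hT10 D hμ
        hδ' hL64 q1 q2 q3 q4
      rw [← hwv, ← hww] at h4
      exact h4

end Pool.Agent.H282.HE
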